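import Pool.Agent.Q234.KT.Stm

/-!
# Project KT, job CN: the number of typed sets of polymers through a site
-/

set_option autoImplicit false

open scoped BigOperators
open Finset Pool.Agent.TH235.PP Pool.Agent.Q234.KT

namespace Pool.Agent.Q63.KT.CN

lemma geo (N : ℕ) : ∑ k ∈ range (N + 1), (if k = 0 then (0 : ℝ) else (1 / 4) ^ k) ≤ 1 / 3 := by
  have h : ∀ N : ℕ, ∑ k ∈ range (N + 1), (if k = 0 then (0 : ℝ) else (1 / 4) ^ k) =
      1 / 3 * (1 - (1 / 4) ^ N) := by
    intro N
    induction N with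
    | zero => simp
    | succ n ih =>
      rw [Finset.sum_range_succ, ih, if_neg (Nat.succ_ne_zero n), pow_succ]
      ring
  rw [h]
  have : (0 : ℝ) ≤ (1 / 4) ^ N := by positivity
  linarith

lemma sumT {V : Type} [Fintype V] [DecidableEq V]
    (h : {X : Finset V // X.Nonempty} → Finset V) (a : ℕ) (v : V) (y : ℝ) (hy0 : 0 < y)
    (hy : 2 * y * a = 1 / 4) (hsub : ∀ X, X.1 ⊆ h X)
    (hc : ∀ (v : V) (k : ℕ), ((univ.image h).filter fun S => v ∈ S ∧ S.card = k).card ≤ a ^ k) :
    ∑ X ∈ univ.filter (fun X => v ∈ h X), y ^ (h X).card ≤ 1 / 3 := by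
  classical
  set T := univ.filter (fun X => v ∈ h X) with hT
  have e1 : ∑ X ∈ T, y ^ (h X).card =
      ∑ S ∈ T.image h, ∑ X ∈ T.filter (fun X => h X = S), y ^ (h X).card :=
    (Finset.sum_fiberwise_of_maps_to (fun X hX => Finset.mem_image_of_mem h hX) _).symm
  have e2 : ∑ S ∈ T.image h, ∑ X ∈ T.filter (fun X => h X = S), y ^ (h X).card ≤
      ∑ S ∈ T.image h, (2 * y) ^ S.card := by
    apply Finset.sum_le_sum
    intro S _
    have k1 : ∑ X ∈ T.filter (fun X => h X = S), y ^ (h X).card =
        ((T.filter (fun X => h X = S)).card : ℝ) * y ^ S.card := by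
      rw [Finset.sum_congr rfl (g := fun _ => y ^ S.card)]
      · rw [Finset.sum_const, nsmul_eq_mul]
      · intro X hX
        rw [(Finset.mem_filter.1 hX).2]
    have k2 : (T.filter (fun X => h X = S)).card ≤ 2 ^ S.card := by
      rw [← Finset.card_powerset]
      apply Finset.card_le_card_of_injOn (fun X => X.1)
      · intro X hX
        rw [Finset.mem_coe, Finset.mem_filter] at hX
        rw [Finset.mem_coe, Finset.mem_powerset, ← hX.2]
        exact hsub X
      · intro X _ Y _ hXY
        exact Subtype.ext hXY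
    rw [k1, mul_pow]
    apply mul_le_mul_of_nonneg_right _ (by positivity)
    exact_mod_cast k2
  have e3 : ∑ S ∈ T.image h, (2 * y) ^ S.card =
      ∑ k ∈ range (Fintype.card V + 1), ∑ S ∈ (T.image h).filter (fun S => S.card = k),
        (2 * y) ^ S.card := by
    refine (Finset.sum_fiberwise_of_maps_to (fun S _ => ?_) _).symm
    rw [Finset.mem_range]
    exact Nat.lt_succ_of_le (Finset.card_le_univ S)
  have e4 : ∑ k ∈ range (Fintype.card V + 1), ∑ S ∈ (T.image h).filter (fun S => S.card = k),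
        (2 * y) ^ S.card ≤
      ∑ k ∈ range (Fintype.card V + 1), (if k = 0 then (0 : ℝ) else (1 / 4) ^ k) := by
    apply Finset.sum_le_sum
    intro k _
    have k0 : (T.image h).filter (fun S => S.card = k) ⊆
        (univ.image h).filter fun S => v ∈ S ∧ S.card = k := by
      intro S hS
      rw [Finset.mem_filter, Finset.mem_image] at hS
      obtain ⟨⟨X, hX, rfl⟩, hk⟩ := hS
      rw [hT, Finset.mem_filter] at hX
      rw [Finset.mem_filter, Finset.mem_image]
      exact ⟨⟨X, mem_univ _, rfl⟩, hX.2, hk⟩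
    have k1 : ∑ S ∈ (T.image h).filter (fun S => S.card = k), (2 * y) ^ S.card =
        (((T.image h).filter (fun S => S.card = k)).card : ℝ) * (2 * y) ^ k := by
      rw [Finset.sum_congr rfl (g := fun _ => (2 * y) ^ k)]
      · rw [Finset.sum_const, nsmul_eq_mul]
      · intro X hX
        rw [(Finset.mem_filter.1 hX).2]
    rw [k1]
    split_ifs with hk
    · have : (T.image h).filter (fun S => S.card = k) = ∅ := by
        rw [Finset.eq_empty_iff_forall_notMem]
        intro S hS
        have h1 := k0 hS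
        rw [Finset.mem_filter] at h1
        obtain ⟨-, h2, h3⟩ := h1
        rw [hk, Finset.card_eq_zero] at h3
        rw [h3] at h2
        exact absurd h2 (Finset.notMem_empty v)
      rw [this]
      simp
    · have h2 : (((T.image h).filter (fun S => S.card = k)).card : ℝ) ≤ (a : ℝ) ^ k := by
        exact_mod_cast le_trans (Finset.card_le_card k0) (hc v k)
      calc (((T.image h).filter (fun S => S.card = k)).card : ℝ) * (2 * y) ^ k ≤
          (a : ℝ) ^ k * (2 * y) ^ k := mul_le_mul_of_nonneg_right h2 (by positivity)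
        _ = (2 * y * a) ^ k := by rw [← mul_pow]; ring_nf
        _ = (1 / 4) ^ k := by rw [hy]
  rw [e1]
  refine le_trans e2 ?_
  rw [e3]
  exact le_trans e4 (geo _)

lemma sumB {V : Type} [Fintype V] [DecidableEq V]
    (h : {X : Finset V // X.Nonempty} → Finset V) (v : V) (y : ℝ) :
    ∑ p ∈ univ.filter (fun p : {X : Finset V // X.Nonempty} × Bool => v ∈ h p.1),
      y ^ (h p.1).card = 2 * ∑ X ∈ univ.filter (fun X => v ∈ h X), y ^ (h X).card := by
  classical
  have : univ.filter (fun p : {X : Finset V // X.Nonempty} × Bool => v ∈ h p.1) =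
      (univ.filter (fun X => v ∈ h X)) ×ˢ (univ : Finset Bool) := by
    ext p
    simp
  rw [this, Finset.sum_product, Finset.mul_sum]
  apply Finset.sum_congr rfl
  intro X _
  rw [Fintype.sum_bool]
  ring

theorem main : CntS := by
  classical
  intro V _ _ h a s v ha hsub hc
  have ha' : (0 : ℝ) < a := by exact_mod_cast ha
  have ha1 : (1 : ℝ) ≤ a := by exact_mod_cast ha
  set y : ℝ := 1 / (8 * a) with hy
  have hy0 : 0 < y := by positivity
  have hy1 : y ≤ 1 := by
    rw [hy, div_le_one (by positivity)]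
    linarith
  have hya : 2 * y * a = 1 / 4 := by
    rw [hy]
    field_simp
    norm_num
  have hyi : y * (8 * a) = 1 := by
    rw [hy]
    field_simp
  set U := univ.filter (fun p : {X : Finset V // X.Nonempty} × Bool => v ∈ h p.1) with hU
  have h1 : ((typ h s v).card : ℝ) * y ^ s ≤ ∑ Q ∈ typ h s v, ∏ p ∈ Q, y ^ (h p.1).card := by
    rw [← nsmul_eq_mul]
    apply Finset.card_nsmul_le_sum
    intro Q hQ
    rw [Finset.prod_pow_eq_pow_sum]
    unfold typ at hQ
    rw [Finset.mem_filter] at hQ
    exact pow_le_pow_of_le_one hy0.le hy1 hQ.2.2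
  have h2 : ∑ Q ∈ typ h s v, ∏ p ∈ Q, y ^ (h p.1).card ≤
      ∑ Q ∈ U.powerset, ∏ p ∈ Q, y ^ (h p.1).card := by
    apply Finset.sum_le_sum_of_subset_of_nonneg
    · intro Q hQ
      unfold typ at hQ
      rw [Finset.mem_filter] at hQ
      rw [Finset.mem_powerset]
      intro p hp
      rw [hU, Finset.mem_filter]
      exact ⟨mem_univ _, hQ.2.1 p hp⟩
    · intro Q _ _
      positivity
  have h3 : ∑ Q ∈ U.powerset, ∏ p ∈ Q, y ^ (h p.1).card = ∏ p ∈ U, (1 + y ^ (h p.1).card) :=
    (Finset.prod_one_add _).symm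
  have h4 : ∏ p ∈ U, (1 + y ^ (h p.1).card) ≤ Real.exp (∑ p ∈ U, y ^ (h p.1).card) := by
    rw [Real.exp_sum]
    apply Finset.prod_le_prod
    · intro p _
      positivity
    · intro p _
      rw [add_comm]
      exact Real.add_one_le_exp _
  have h5 : ∑ p ∈ U, y ^ (h p.1).card ≤ 2 / 3 := by
    rw [hU, sumB h v y]
    have := sumT h a v y hy0 hya hsub hc
    linarith
  have h6 : Real.exp (2 / 3) ≤ 2 := by
    have h7 : Real.exp (2 / 3) ^ 3 ≤ 2 ^ 3 := by
      rw [← Real.exp_nat_mul]
      have : ((3 : ℕ) : ℝ) * (2 / 3) = 1 + 1 := by norm_num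
      rw [this, Real.exp_add]
      have := Real.exp_one_lt_d9
      have h0 := Real.exp_pos 1
      nlinarith
    exact le_of_pow_le_pow_left₀ (by norm_num) (by norm_num) h7
  have h8 : ((typ h s v).card : ℝ) * y ^ s ≤ 2 :=
    le_trans h1 (le_trans h2 (h3 ▸ le_trans h4 (le_trans (Real.exp_le_exp.2 h5) h6)))
  calc ((typ h s v).card : ℝ) = ((typ h s v).card : ℝ) * y ^ s * (8 * a : ℝ) ^ s := by
        rw [mul_assoc, ← mul_pow, hyi, one_pow, mul_one]
    _ ≤ 2 * (8 * a : ℝ) ^ s := mul_le_mul_of_nonneg_right h8 (by positivity)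

end Pool.Agent.Q63.KT.CN
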