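import Pool.Agent.Q234.KT.Stm

/-!
# Project KT, job AN: the number of connected sets on the torus
-/

set_option autoImplicit false

open scoped BigOperators
open Finset Pool.Agent.TH235.PP Pool.Agent.Q234.KT

namespace Pool.Agent.Q63.KT.AN

open Classical in
/-- the walks with `k` steps from `o`, without the first vertex -/
noncomputable def walks {C : Type} [Fintype C] (ad : C → C → Prop) : ℕ → C → Finset (List C)
  | 0, _ => {[]}
  | k + 1, o => (Finset.univ.filter fun Q => ad o Q).biUnion fun Q =>
      (walks ad k Q).image fun l => Q :: l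

open Classical in
lemma card_walks {C : Type} [Fintype C] (ad : C → C → Prop) (Δ : ℕ)
    (h : ∀ P, (Finset.univ.filter fun Q => ad P Q).card ≤ Δ) (k : ℕ) (o : C) :
    (walks ad k o).card ≤ Δ ^ k := by
  induction k generalizing o with
  | zero => simp [walks]
  | succ k ih =>
    rw [walks]
    refine le_trans (Finset.card_biUnion_le_card_mul _ _ (Δ ^ k) ?_) ?_
    · intro Q _
      exact le_trans Finset.card_image_le (ih Q)
    · rw [pow_succ, mul_comm (Δ ^ k)]
      exact Nat.mul_le_mul_right _ (h o)

lemma mem_walks {C : Type} [Fintype C] (ad : C → C → Prop) (l : List C) (o : C)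
    (h : List.IsChain ad (o :: l)) : l ∈ walks ad l.length o := by
  induction l generalizing o with
  | nil => simp [walks]
  | cons Q l ih =>
    rw [List.length_cons, walks]
    rw [List.isChain_cons_cons] at h
    simp only [Finset.mem_biUnion, Finset.mem_filter, Finset.mem_univ, true_and, Finset.mem_image]
    exact ⟨Q, h.1, l, ih Q h.2, rfl⟩

lemma insert_chain {C : Type} (ad : C → C → Prop) (hs : ∀ P Q, ad P Q → ad Q P)
    (s t : List C) (P R : C) (h : List.IsChain ad (s ++ P :: t)) (hR : ad P R) :
    List.IsChain ad (s ++ P :: R :: P :: t) := by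
  rw [List.isChain_append] at h ⊢
  refine ⟨h.1, ?_, ?_⟩
  · rw [List.isChain_cons_cons, List.isChain_cons_cons]
    exact ⟨hR, hs _ _ hR, h.2.1⟩
  · intro x hx y hy
    exact h.2.2 x hx y (by simpa using hy)

lemma exists_walk {C : Type} [DecidableEq C] (ad : C → C → Prop) (hs : ∀ P Q, ad P Q → ad Q P)
    (o : C) (Γ : Finset C) (ho : o ∈ Γ)
    (h : ∀ T ⊆ Γ, T.Nonempty → T ≠ Γ → ∃ u ∈ T, ∃ v ∈ Γ, v ∉ T ∧ ad u v) (k : ℕ)
    (hk : k + 1 ≤ Γ.card) :
    ∃ l : List C, List.IsChain ad (o :: l) ∧ (o :: l).toFinset ⊆ Γ ∧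
      (o :: l).toFinset.card = k + 1 ∧ l.length = 2 * k := by
  induction k with
  | zero =>
    refine ⟨[], by simp, ?_, by simp, by simp⟩
    simpa using ho
  | succ k ih =>
    obtain ⟨l, h1, h2, h3, h4⟩ := ih (by omega)
    have hne : (o :: l).toFinset ≠ Γ := by
      intro hh
      rw [hh] at h3
      omega
    obtain ⟨P, hP, R, hRΓ, hR, hadj⟩ := h (o :: l).toFinset h2 ⟨o, by simp⟩ hne
    rw [List.mem_toFinset] at hP
    obtain ⟨s, t, hst⟩ := List.append_of_mem hP
    have h5 := insert_chain ad hs s t P R (hst ▸ h1) hadj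
    obtain ⟨l', hl'⟩ : ∃ l', s ++ P :: R :: P :: t = o :: l' := by
      cases s with
      | nil =>
        have : o = P := by simpa using (List.cons_eq_cons.1 hst).1
        exact ⟨R :: P :: t, by rw [this]; rfl⟩
      | cons a s =>
        have : o = a := by simpa using (List.cons_eq_cons.1 hst).1
        exact ⟨s ++ P :: R :: P :: t, by rw [this]; rfl⟩
    have hset : (o :: l').toFinset = insert R (o :: l).toFinset := by
      rw [← hl', hst]
      ext x
      simp only [List.mem_toFinset, List.mem_append, List.mem_cons, Finset.mem_insert]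
      tauto
    refine ⟨l', hl' ▸ h5, ?_, ?_, ?_⟩
    · rw [hset]
      exact Finset.insert_subset hRΓ h2
    · rw [hset, Finset.card_insert_of_notMem hR, h3]
    · have e1 : (s ++ P :: R :: P :: t).length = (o :: l').length := by rw [hl']
      have e2 : (o :: l).length = (s ++ P :: t).length := by rw [hst]
      simp only [List.length_append, List.length_cons] at e1 e2
      omega

lemma adj_symm {L : ℕ} (u v : Site L) (h : adj u v) : adj v u := by
  unfold adj at *
  tauto

open Classical in
lemma deg {L : ℕ} [NeZero L] (P : Site L) :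
    (Finset.univ.filter fun Q : Site L => adj P Q).card ≤ 4 := by
  have : (Finset.univ.filter fun Q : Site L => adj P Q) ⊆
      {(P.1 + 1, P.2), (P.1, P.2 + 1), (P.1 - 1, P.2), (P.1, P.2 - 1)} := by
    intro Q hQ
    rw [Finset.mem_filter] at hQ
    rcases hQ.2 with h | h | h | h
    · simp [h]
    · simp [h]
    · simp [h]
    · simp [h]
  refine le_trans (Finset.card_le_card this) ?_
  exact Finset.card_le_four

open Classical in
theorem main : AniS := by
  intro L _ 𝒮 o k h𝒮
  rcases k with _ | n
  · refine le_trans (le_of_eq ?_) (Nat.zero_le _)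
    rw [Finset.card_eq_zero, Finset.eq_empty_iff_forall_notMem]
    intro S hS
    obtain ⟨-, h1, h2⟩ := h𝒮 S hS
    rw [Finset.card_eq_zero] at h2
    rw [h2] at h1
    exact absurd h1 (Finset.notMem_empty o)
  · have hsub : 𝒮 ⊆ (walks (adj (L := L)) (2 * n) o).image fun l => (o :: l).toFinset := by
      intro Γ hΓ
      obtain ⟨hA, ho, hc⟩ := h𝒮 Γ hΓ
      obtain ⟨l, h1, h2, h3, h4⟩ := exists_walk (adj (L := L)) adj_symm o Γ ho hA n (by omega)
      rw [Finset.mem_image]
      refine ⟨l, ?_, Finset.eq_of_subset_of_card_le h2 (by omega)⟩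
      rw [← h4]
      exact mem_walks (adj (L := L)) l o h1
    calc _ ≤ _ := Finset.card_le_card hsub
      _ ≤ _ := Finset.card_image_le
      _ ≤ 4 ^ (2 * n) := card_walks (adj (L := L)) 4 deg _ _
      _ ≤ 4 ^ (2 * (n + 1)) := Nat.pow_le_pow_right (by norm_num) (by omega)
      _ = 16 ^ (n + 1) := by rw [pow_mul]; norm_num

end Pool.Agent.Q63.KT.AN
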